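import Mathlib

/-!
# DB-D-Inv: inverse limits of self maps of a compact set

PLAN.  `inv_proj`: given `p ∈ K` put `z k = p`, `z (k+i+1)` = a preimage of `z (k+i)` in `K` (recursion,
`SurjOn`), `z (k - i)` = image under the maps (`mapsTo`); e.g. define `z` by `u : ℕ → α` with `u 0 = p`,
`u (i+1) ∈ K`, `g (k+i) (u (i+1)) = u i`, and `z j = if k ≤ j then u (j - k) else` (downward recursion).
`inv_agree`: induction downwards.
`inv_compact`: closed subset of the compact set `Set.pi univ (fun _ => K)` (`isCompact_univ_pi`): for every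
`k` the set `{z | z k ∈ K ∧ z (k+1) ∈ K ∧ z k = g k (z (k+1))}` is the preimage of the compact (so closed)
set `{(g k q, q) | q ∈ K}` under the continuous map `z ↦ (z k, z (k+1))`.
`inv_connected`: let `L n = {z | ∀ k, z k ∈ K, ∀ k < n, z k = g k (z (k+1))}`: image of the connected compact set
`Set.pi univ (fun _ => K)` under the map which keeps the coordinates `≥ n` and computes the coordinates
`< n` (continuous on it), so compact, connected, decreasing in `n`, with intersection `InvLim K g`.
Intersection of a decreasing sequence of compact connected sets is connected: e.g. Mathlib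
`IsPreconnected`/`isConnected_iInter...` for directed families, or: if `InvLim = P ∪ Q` with `P`, `Q` compact
disjoint non-empty, take disjoint open `U ⊇ P`, `V ⊇ Q` (`SeparatedNhds`), then `L n ⊆ U ∪ V` for some `n`
(compactness: `IsCompact.elim_directed_family_closed_of_isCompact` / `exists_subset_nhds_of_isCompact`).
-/

set_option autoImplicit false

namespace Pool.Agent.DB

open Set

/-- the inverse limit of self maps `g k` of `K` -/
def InvLim {α : Type*} (K : Set α) (g : ℕ → α → α) : Set (ℕ → α) :=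
  {z | ∀ k, z k ∈ K ∧ z k = g k (z (k + 1))}

theorem inv_agree {α : Type*} {K : Set α} {g : ℕ → α → α} {z w : ℕ → α} (hz : z ∈ InvLim K g)
    (hw : w ∈ InvLim K g) {k : ℕ} (h : z k = w k) {i : ℕ} (hi : i ≤ k) : z i = w i := by
  obtain ⟨d, rfl⟩ := Nat.exists_eq_add_of_le hi
  clear hi
  induction d generalizing i with
  | zero => simpa using h
  | succ d ih =>
    have h1 : z (i + 1) = w (i + 1) := ih (i := i + 1) (by
      have : i + 1 + d = i + (d + 1) := by ring
      rw [this]; exact h)
    rw [(hz i).2, (hw i).2, h1]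

/-- put `g 0 (z 0)` in front of a sequence -/
private def pre {α : Type*} (f : α → α) (z : ℕ → α) : ℕ → α
  | 0 => f (z 0)
  | i + 1 => z i

theorem inv_proj {α : Type*} {K : Set α} {g : ℕ → α → α} (hm : ∀ k, MapsTo (g k) K K)
    (hs : ∀ k, SurjOn (g k) K K) (k : ℕ) {p : α} (hp : p ∈ K) : ∃ z ∈ InvLim K g, z k = p := by
  induction k generalizing g with
  | zero =>
    choose r hr1 hr2 using fun (k : ℕ) (q : K) => hs k q.2
    let u : ℕ → K := fun n => Nat.rec (motive := fun _ => K) ⟨p, hp⟩
      (fun n q => ⟨r n q, hr1 n q⟩) n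
    refine ⟨fun n => (u n : α), fun n => ⟨(u n).2, ?_⟩, rfl⟩
    exact (hr2 n (u n)).symm
  | succ k ih =>
    obtain ⟨z, hz, hzk⟩ := ih (g := fun i => g (i + 1)) (fun i => hm (i + 1)) (fun i => hs (i + 1))
    refine ⟨pre (g 0) z, ?_, hzk⟩
    intro i
    cases i with
    | zero => exact ⟨hm 0 (hz 0).1, rfl⟩
    | succ i => exact hz i

theorem inv_compact {α : Type*} [TopologicalSpace α] [T2Space α] {K : Set α} (hK : IsCompact K)
    {g : ℕ → α → α} (hc : ∀ k, ContinuousOn (g k) K) : IsCompact (InvLim K g) := by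
  have h1 : IsCompact (Set.pi univ (fun _ : ℕ => K)) := isCompact_univ_pi (fun _ => hK)
  have h2 : InvLim K g = Set.pi univ (fun _ : ℕ => K) ∩
      ⋂ k : ℕ, (fun z : ℕ → α => (z k, z (k + 1))) ⁻¹' ((fun q => (g k q, q)) '' K) := by
    ext z
    simp only [InvLim, mem_ofPred_eq, mem_inter_iff, mem_pi, mem_univ, forall_true_left, mem_iInter,
      mem_preimage, mem_image, Prod.mk.injEq]
    constructor
    · intro hz
      exact ⟨fun k => (hz k).1, fun k => ⟨z (k + 1), (hz (k + 1)).1, (hz k).2.symm, rfl⟩⟩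
    · rintro ⟨hz1, hz2⟩ k
      obtain ⟨q, _, hq1, hq2⟩ := hz2 k
      refine ⟨hz1 k, ?_⟩
      rw [← hq1, ← hq2]
  rw [h2]
  apply h1.inter_right
  apply isClosed_iInter
  intro k
  apply IsClosed.preimage (by fun_prop)
  apply IsCompact.isClosed
  exact hK.image_of_continuousOn ((hc k).prodMk continuousOn_id)

/-- sequences compatible at the first `n` places -/
private def Lset {α : Type*} (K : Set α) (g : ℕ → α → α) (n : ℕ) : Set (ℕ → α) :=
  {z | (∀ k, z k ∈ K) ∧ ∀ k < n, z k = g k (z (k + 1))}

private theorem Lset_succ {α : Type*} {K : Set α} {g : ℕ → α → α} (hm : ∀ k, MapsTo (g k) K K)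
    (n : ℕ) : Lset K g (n + 1) = pre (g 0) '' Lset K (fun i => g (i + 1)) n := by
  ext z
  constructor
  · rintro ⟨h1, h2⟩
    refine ⟨fun i => z (i + 1), ⟨fun k => h1 (k + 1), fun k hk => h2 (k + 1) (by omega)⟩, ?_⟩
    funext i
    cases i with
    | zero => exact (h2 0 (by omega)).symm
    | succ i => rfl
  · rintro ⟨w, ⟨h1, h2⟩, rfl⟩
    constructor
    · intro k
      cases k with
      | zero => exact hm 0 (h1 0)
      | succ k => exact h1 k
    · intro k hk
      cases k with
      | zero => rfl
      | succ k => exact h2 k (by omega)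

private theorem Lset_good {α : Type*} [TopologicalSpace α] [T2Space α] {K : Set α}
    (hK : IsCompact K) (hKc : IsConnected K) (n : ℕ) :
    ∀ {g : ℕ → α → α}, (∀ k, ContinuousOn (g k) K) → (∀ k, MapsTo (g k) K K) →
      IsCompact (Lset K g n) ∧ IsConnected (Lset K g n) := by
  induction n with
  | zero =>
    intro g _ _
    have h0 : Lset K g 0 = Set.pi univ (fun _ : ℕ => K) := by
      ext z
      simp [Lset]
    rw [h0]
    exact ⟨isCompact_univ_pi (fun _ => hK), isConnected_univ_pi.mpr (fun _ => hKc)⟩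
  | succ n ih =>
    intro g hc hm
    rw [Lset_succ hm n]
    obtain ⟨h1, h2⟩ := ih (g := fun i => g (i + 1)) (fun i => hc (i + 1)) (fun i => hm (i + 1))
    have h3 : ContinuousOn (pre (g 0)) (Lset K (fun i => g (i + 1)) n) := by
      rw [continuousOn_pi]
      intro i
      cases i with
      | zero =>
        exact (hc 0).comp (continuous_apply 0).continuousOn (fun z hz => hz.1 0)
      | succ i => exact (continuous_apply i).continuousOn
    exact ⟨h1.image_of_continuousOn h3, h2.image _ h3⟩

theorem inv_connected {α : Type*} [TopologicalSpace α] [T2Space α] {K : Set α} (hK : IsCompact K)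
    (hKc : IsConnected K) {g : ℕ → α → α} (hc : ∀ k, ContinuousOn (g k) K)
    (hm : ∀ k, MapsTo (g k) K K) : IsConnected (InvLim K g) := by
  have hcomp : IsCompact (InvLim K g) := inv_compact hK hc
  have hanti : ∀ {m n : ℕ}, m ≤ n → Lset K g n ⊆ Lset K g m := fun hmn z hz =>
    ⟨hz.1, fun k hk => hz.2 k (lt_of_lt_of_le hk hmn)⟩
  have hdir : Directed (fun a b => a ⊇ b) (fun n => Lset K g n) := fun m n =>
    ⟨max m n, hanti (le_max_left _ _), hanti (le_max_right _ _)⟩
  have hinter : ⋂ n, Lset K g n = InvLim K g := by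
    ext z
    simp only [mem_iInter]
    constructor
    · intro h k
      exact ⟨(h 0).1 k, (h (k + 1)).2 k (Nat.lt_succ_self k)⟩
    · intro h n
      exact ⟨fun k => (h k).1, fun k _ => (h k).2⟩
  have hsub : ∀ n, InvLim K g ⊆ Lset K g n := fun n => by
    rw [← hinter]; exact iInter_subset _ n
  have hcpt : ∀ n, IsCompact (Lset K g n) := fun n => (Lset_good hK hKc n hc hm).1
  have hconn : ∀ n, IsConnected (Lset K g n) := fun n => (Lset_good hK hKc n hc hm).2
  constructor
  · rw [← hinter]
    exact IsCompact.nonempty_iInter_of_directed_nonempty_isCompact_isClosed _ hdir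
      (fun n => (hconn n).nonempty) hcpt (fun n => (hcpt n).isClosed)
  · intro u v hu hv huv hnu hnv
    by_contra hcon
    rw [not_nonempty_iff_eq_empty] at hcon
    have hP : IsCompact (InvLim K g \ v) := hcomp.diff hv
    have hQ : IsCompact (InvLim K g \ u) := hcomp.diff hu
    have hPQ : Disjoint (InvLim K g \ v) (InvLim K g \ u) := by
      rw [Set.disjoint_left]
      rintro x ⟨hx, hxv⟩ ⟨_, hxu⟩
      rcases huv hx with h | h
      · exact hxu h
      · exact hxv h
    obtain ⟨U, V, hU, hV, hPU, hQV, hUV⟩ := SeparatedNhds.of_isCompact_isCompact hP hQ hPQ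
    have hcov : InvLim K g ⊆ U ∪ V := by
      intro x hx
      by_cases hxu : x ∈ u
      · left
        apply hPU
        refine ⟨hx, fun hxv => ?_⟩
        have : x ∈ InvLim K g ∩ (u ∩ v) := ⟨hx, hxu, hxv⟩
        rw [hcon] at this
        exact this
      · right
        exact hQV ⟨hx, hxu⟩
    obtain ⟨n, hn⟩ := exists_subset_nhds_of_isCompact (V := fun n => Lset K g n) (U := U ∪ V)
      hdir hcpt (fun x hx => (hU.union hV).mem_nhds (hcov (by rw [← hinter]; exact hx)))
    obtain ⟨a, ha, hau⟩ := hnu
    obtain ⟨b, hb, hbv⟩ := hnv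
    have hav : a ∉ v := fun h => by
      have : a ∈ InvLim K g ∩ (u ∩ v) := ⟨ha, hau, h⟩
      rw [hcon] at this
      exact this
    have hbu : b ∉ u := fun h => by
      have : b ∈ InvLim K g ∩ (u ∩ v) := ⟨hb, h, hbv⟩
      rw [hcon] at this
      exact this
    obtain ⟨x, _, hxU, hxV⟩ := (hconn n).isPreconnected U V hU hV hn
      ⟨a, hsub n ha, hPU ⟨ha, hav⟩⟩ ⟨b, hsub n hb, hQV ⟨hb, hbu⟩⟩
    exact (Set.disjoint_left.mp hUV) hxU hxV

end Pool.Agent.DB
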