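import Pool.Agent.DB.D.Inv

/-!
# DB-D-Small: small fibres of the projections of an inverse limit

PLAN.  Step 1: some projection has all its fibres inside members of the cover.  Otherwise for every
`k` there is `p_k ∈ K` such that the fibre of `p_k` under `z ↦ z k` is in no `O j`.  Choose `w_k` in the
fibre (`inv_proj`).  The limit is compact (`inv_compact`) and metrisable (`ℕ → α` with `α` metric, first
countable; `IsCompact.tendsto_subseq`, or cluster points of a filter): a subsequence `w_{k i} → w ∈ O j`.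
Choose `z_k ∉ O j` in the fibre of `p_k`: `z_k` and `w_k` agree in the coordinates `≤ k` (`inv_agree`), so
`z_{k i} → w` (`tendsto_pi_nhds`), and `z_{k i} ∈ O j` eventually: contradiction.
Step 2: for this `k`, if no `δ` works: `p_n ∈ K` such that for all `j` there is `z ∉ O j` with
`dist (z k) p_n < 1/(n+1)`.  Subsequence `p_n → p ∈ K` (`K` compact), the fibre of `p` is in `O j`; take
`z_n ∉ O j` with `dist (z_n k) p_n < 1/(n+1)`; subsequence `z_n → z` in the limit, `z k = p`, so `z ∈ O j`,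
but the complement of `O j` is closed: contradiction.
-/

set_option autoImplicit false

namespace Pool.Agent.DB

open Set

/-- composite of the bonding maps, from the coordinate `i + d` to the coordinate `i` -/
private def cmp {α : Type*} (g : ℕ → α → α) (i : ℕ) : ℕ → α → α
  | 0 => id
  | d + 1 => fun p => cmp g i d (g (i + d) p)

private theorem cmp_spec {α : Type*} {K : Set α} {g : ℕ → α → α} {z : ℕ → α} (hz : z ∈ InvLim K g)
    (i d : ℕ) : cmp g i d (z (i + d)) = z i := by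
  induction d with
  | zero => rfl
  | succ d ih =>
    change cmp g i d (g (i + d) (z (i + d + 1))) = z i
    rw [← (hz (i + d)).2, ih]

private theorem cmp_cont {α : Type*} [TopologicalSpace α] {K : Set α} {g : ℕ → α → α}
    (hc : ∀ k, ContinuousOn (g k) K) (hm : ∀ k, MapsTo (g k) K K) (i d : ℕ) :
    ContinuousOn (cmp g i d) K := by
  induction d with
  | zero => exact continuousOn_id
  | succ d ih => exact ih.comp (hc (i + d)) (hm (i + d))

theorem inv_small {α : Type*} [MetricSpace α] {K : Set α} (hK : IsCompact K)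
    {g : ℕ → α → α} (hc : ∀ k, ContinuousOn (g k) K) (hm : ∀ k, MapsTo (g k) K K)
    (hs : ∀ k, SurjOn (g k) K K) (ι : Type) (O : ι → Set (InvLim K g)) (hO : ∀ j, IsOpen (O j))
    (hOc : ⋃ j, O j = univ) :
    ∃ k : ℕ, ∃ δ : ℝ, 0 < δ ∧ ∀ p ∈ K, ∃ j, ∀ z : InvLim K g, dist (z.1 k) p < δ → z ∈ O j := by
  classical
  have : CompactSpace (InvLim K g) := isCompact_iff_compactSpace.1 (inv_compact hK hc)
  have h1 : ∀ x : InvLim K g, ∃ (j : ι) (I : Finset ℕ) (u : ℕ → Set α),
      (∀ i ∈ I, IsOpen (u i) ∧ x.1 i ∈ u i) ∧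
      ∀ z : InvLim K g, (∀ i ∈ I, z.1 i ∈ u i) → z ∈ O j := by
    intro x
    have hx : x ∈ ⋃ j, O j := by rw [hOc]; exact mem_univ _
    obtain ⟨j, hj⟩ := mem_iUnion.1 hx
    obtain ⟨U, hU, hUO⟩ := isOpen_induced_iff.1 (hO j)
    have hxU : x.1 ∈ U := by
      have : x ∈ Subtype.val ⁻¹' U := by rw [hUO]; exact hj
      exact this
    obtain ⟨I, u, hu, hsub⟩ := isOpen_pi_iff.1 hU x.1 hxU
    refine ⟨j, I, u, hu, fun z hz => ?_⟩
    rw [← hUO]
    exact hsub (fun i hi => hz i hi)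
  choose j I u hu hz using h1
  let N : InvLim K g → Set (InvLim K g) := fun x => {z | ∀ i ∈ I x, z.1 i ∈ u x i}
  have hNo : ∀ x, IsOpen (N x) := by
    intro x
    have : N x = ⋂ i ∈ I x, {z : InvLim K g | z.1 i ∈ u x i} := by
      ext z
      simp [N]
    rw [this]
    refine isOpen_biInter_finset fun i hi => ?_
    exact (hu x i hi).1.preimage ((continuous_apply i).comp continuous_subtype_val)
  have hNx : ∀ x, x ∈ N x := fun x i hi => (hu x i hi).2
  obtain ⟨t, ht⟩ := isCompact_univ.elim_finite_subcover N hNo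
    (fun x _ => mem_iUnion.2 ⟨x, hNx x⟩)
  set k := t.sup fun x => (I x).sup id with hk
  have hik : ∀ x ∈ t, ∀ i ∈ I x, i ≤ k := by
    intro x hx i hi
    exact le_trans (Finset.le_sup (f := id) hi) (Finset.le_sup (f := fun x => (I x).sup id) hx)
  have h2 : ∀ x : t, ∃ W : Set α, IsOpen W ∧
      ∀ p ∈ K, p ∈ W ↔ ∀ i ∈ I x.1, cmp g i (k - i) p ∈ u x.1 i := by
    intro x
    have h3 : ∀ i : ℕ, ∃ v : Set α, i ∈ I x.1 → IsOpen v ∧
        cmp g i (k - i) ⁻¹' (u x.1 i) ∩ K = v ∩ K := by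
      intro i
      by_cases hi : i ∈ I x.1
      · obtain ⟨v, hv, hv2⟩ := continuousOn_iff'.1 (cmp_cont hc hm i (k - i)) _ (hu x.1 i hi).1
        exact ⟨v, fun _ => ⟨hv, hv2⟩⟩
      · exact ⟨∅, fun h => absurd h hi⟩
    choose v hv using h3
    refine ⟨⋂ i ∈ I x.1, v i, isOpen_biInter_finset fun i hi => (hv i hi).1, fun p hp => ?_⟩
    rw [mem_iInter₂]
    constructor
    · intro h i hi
      have h4 : p ∈ v i ∩ K := ⟨h i hi, hp⟩
      rw [← (hv i hi).2] at h4
      exact h4.1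
    · intro h i hi
      have h4 : p ∈ cmp g i (k - i) ⁻¹' (u x.1 i) ∩ K := ⟨h i hi, hp⟩
      rw [(hv i hi).2] at h4
      exact h4.1
  choose W hWo hW using h2
  have hval : ∀ z : InvLim K g, ∀ x ∈ t, ∀ i ∈ I x, cmp g i (k - i) (z.1 k) = z.1 i := by
    intro z x hx i hi
    have h5 := cmp_spec z.2 i (k - i)
    rwa [Nat.add_sub_cancel' (hik x hx i hi)] at h5
  obtain ⟨δ, hδ, hleb⟩ := lebesgue_number_lemma_of_metric hK hWo (by
    intro p hp
    obtain ⟨z, hz1, hz2⟩ := inv_proj hm hs k hp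
    obtain ⟨x, hx, hzx⟩ := mem_iUnion₂.1 (ht (mem_univ (⟨z, hz1⟩ : InvLim K g)))
    rw [mem_iUnion]
    refine ⟨⟨x, hx⟩, (hW ⟨x, hx⟩ p hp).2 fun i hi => ?_⟩
    have h6 := hval ⟨z, hz1⟩ x hx i hi
    simp only at h6
    rw [hz2] at h6
    rw [h6]
    exact hzx i hi)
  refine ⟨k, δ, hδ, fun p hp => ?_⟩
  obtain ⟨x, hx⟩ := hleb p hp
  refine ⟨j x.1, fun z hzp => hz x.1 z fun i hi => ?_⟩
  have h7 : z.1 k ∈ W x := hx hzp
  have h8 := (hW x (z.1 k) (z.2 k).1).1 h7 i hi
  rwa [hval z x.1 x.2 i hi] at h8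

end Pool.Agent.DB
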