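import Pool.Agent.DB.D.Map
import Pool.Agent.DB.D.Inv
import Pool.Agent.DB.D.Small
import Pool.Agent.DB.Top.Cpt
import Pool.Agent.DB.Top.Conn

/-!
# DB-D-Lim: the inverse limit of the twist maps (assembly, helper36)
-/

namespace Pool.Agent.DB

open Set

theorem real_compact {V : Type} [Fintype V] [DecidableEq V] (G : SimpleGraph V) :
    IsCompact (real G) := real_isCompact G

theorem real_connected {V : Type} [Fintype V] [DecidableEq V] (G : SimpleGraph V)
    (hG : G.Connected) : IsConnected (real G) := by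
  obtain ⟨a⟩ := hG.nonempty
  obtain ⟨γ, hγ, hm, _, _, hs⟩ := real_path_surj hG a a
  have h : real G = γ '' Icc 0 1 := by
    ext p
    constructor
    · intro hp
      exact hs p hp
    · rintro ⟨t, _, rfl⟩
      exact hm t
  rw [h]
  exact (isConnected_Icc zero_le_one).image _ hγ.continuousOn

theorem lim_eq (M : Model) (x : ℕ → M.V) :
    M.Lim x = InvLim (real M.G) (fun k => M.f (x k)) := rfl

theorem lim_compact (M : Model) (x : ℕ → M.V) (hx : Good M x) : IsCompact (M.Lim x) :=
  inv_compact (real_compact M.G) fun k => f_continuousOn M (x k) (hx.1 k)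

theorem lim_connected (M : Model) (x : ℕ → M.V) (hx : Good M x) : IsConnected (M.Lim x) :=
  inv_connected (real_compact M.G) (real_connected M.G M.tree.1)
    (fun k => f_continuousOn M (x k) (hx.1 k)) (fun k => f_mapsTo M (x k) (hx.1 k))

/-- the projections of the inverse limit are surjective -/
theorem lim_proj (M : Model) (x : ℕ → M.V) (hx : Good M x) (k : ℕ) (p : M.V → ℝ)
    (hp : p ∈ real M.G) : ∃ z ∈ M.Lim x, z k = p :=
  inv_proj (fun k => f_mapsTo M (x k) (hx.1 k)) (fun k => f_surjOn M (x k) (hx.1 k)) k hp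

theorem F_append (M : Model) (l l' : List M.V) : M.F (l ++ l') = M.F l ∘ M.F l' := by
  induction l with
  | nil => rfl
  | cons y l ih =>
    rw [List.cons_append]
    change M.f y ∘ M.F (l ++ l') = (M.f y ∘ M.F l) ∘ M.F l'
    rw [ih]
    rfl

/-- coordinates `0` and `k` are related by `F` -/
theorem lim_F (M : Model) (x : ℕ → M.V) (z : ℕ → M.V → ℝ) (hz : z ∈ M.Lim x) (k : ℕ) :
    z 0 = M.F ((List.range k).map x) (z k) := by
  induction k with
  | zero => rfl
  | succ k ih =>
    rw [List.range_succ, List.map_append, F_append, ih]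
    change _ = M.F _ (M.f (x k) (z (k + 1)))
    rw [← (hz k).2]

/-- small fibres: for an open cover of the limit, small sets of a late coordinate have preimage
in one element of the cover -/
theorem lim_small (M : Model) (x : ℕ → M.V) (hx : Good M x) (ι : Type)
    (O : ι → Set (M.Lim x)) (hO : ∀ j, IsOpen (O j)) (hOc : ⋃ j, O j = univ) :
    ∃ k : ℕ, ∃ δ : ℝ, 0 < δ ∧ ∀ p ∈ real M.G, ∃ j, ∀ z : M.Lim x,
      dist (z.1 k) p < δ → z ∈ O j :=
  inv_small (real_compact M.G) (fun k => f_continuousOn M (x k) (hx.1 k))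
    (fun k => f_mapsTo M (x k) (hx.1 k)) (fun k => f_surjOn M (x k) (hx.1 k)) ι O hO hOc

end Pool.Agent.DB
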