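import Pool.Agent.DB.Defs

/-!
# DB-D-Code: arithmetic of the codes
-/

namespace Pool.Agent.DB

open Set

namespace Model

variable (M : Model) {x : M.V}

/-- the arms at `x` -/
def arms (x : M.V) : Finset ℕ := Finset.Icc (M.K x + 1) (M.K x + M.d x)

theorem L_ge (hx : x ∈ M.B) : 39 ≤ M.L := by
  have h1 := M.long x hx
  have h2 := M.three_le x hx
  nlinarith [Nat.mul_le_mul h2 h2, Nat.zero_le (M.d x ^ 2)]

theorem code_le (hx : x ∈ M.B) {E m : ℕ} (hE : E ∈ M.arms x) (hm : m < E) :
    M.code x E m ≤ M.L := by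
  have h1 := M.long x hx
  have h2 := M.three_le x hx
  unfold arms at hE
  rw [Finset.mem_Icc] at hE
  unfold Model.code
  split_ifs with h
  · exact le_rfl
  · have hK : M.K x = M.d x ^ 2 := rfl
    rw [hK] at hE ⊢
    generalize M.d x = d at *
    have h3 : m + 2 ≤ d ^ 2 + d := by omega
    have h4 : d ^ 2 + d - E ≤ d - 1 := by omega
    have h5 : (m + 2) * d ≤ (d ^ 2 + d) * d := Nat.mul_le_mul_right _ h3
    have h6 : (m + 2) * d = m * d + 2 * d := by ring
    have h7 : (d ^ 2 + d + 1) * d = (d ^ 2 + d) * d + d := by ring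
    omega

theorem code_ge (hx : x ∈ M.B) {E m : ℕ} (hE : E ∈ M.arms x) (hm : m < E) :
    3 ≤ M.code x E m := by
  have h1 := M.L_ge hx
  have h2 := M.three_le x hx
  unfold Model.code
  split_ifs with h
  · omega
  · omega

theorem code_last {E m : ℕ} (hE : E ∈ M.arms x) (hm : m + 1 = E) : M.code x E m = M.L := by
  unfold Model.code
  rw [if_pos hm]

theorem d_lt_arm (hx : x ∈ M.B) {E : ℕ} (hE : E ∈ M.arms x) : M.d x < E := by
  have h2 := M.three_le x hx
  unfold arms at hE
  rw [Finset.mem_Icc] at hE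
  have hK : M.K x = M.d x ^ 2 := rfl
  rw [hK] at hE
  nlinarith

theorem exists_arm (hx : x ∈ M.B) (m : ℕ) : ∃ E ∈ M.arms x, E ≡ m [MOD M.d x] := by
  have h2 := M.three_le x hx
  have hd : 0 < M.d x := by omega
  have hK : M.K x = M.d x * M.d x := by
    unfold Model.K
    ring
  by_cases h : m % M.d x = 0
  · refine ⟨M.K x + M.d x, ?_, ?_⟩
    · unfold arms
      rw [Finset.mem_Icc]
      omega
    · rw [hK]
      change (M.d x * M.d x + M.d x) % M.d x = m % M.d x
      rw [h]
      simp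
  · refine ⟨M.K x + m % M.d x, ?_, ?_⟩
    · unfold arms
      rw [Finset.mem_Icc]
      have := Nat.mod_lt m hd
      omega
    · rw [hK]
      change (M.d x * M.d x + m % M.d x) % M.d x = m % M.d x
      simp

theorem arm_eq (hx : x ∈ M.B) {E E' : ℕ} (hE : E ∈ M.arms x) (hE' : E' ∈ M.arms x)
    (h : E ≡ E' [MOD M.d x]) : E = E' := by
  unfold arms at hE hE'
  rw [Finset.mem_Icc] at hE hE'
  have h5 : (E : ℤ) ≡ E' [ZMOD M.d x] := (Int.natCast_modEq_iff).2 h
  have h6 := h5.dvd
  have h7 : |(E' : ℤ) - E| < M.d x := by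
    rw [abs_lt]
    constructor <;> omega
  have h8 := Int.eq_zero_of_abs_lt_dvd h6 h7
  omega

end Model

end Pool.Agent.DB
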