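import Pool.Agent.DB.D.Pl
import Pool.Agent.DB.D.Code

/-!
# DB-D-Arm: the walk of an arm

PLAN.  `G/Pl.lean` has `armPt_exc` (with a `max`, which is not needed for `u ∈ [m, m+1]`: `abs_le`),
`armPt_exit`, `armPt_zero`.  `arm_int`: `m < E`: `arm_exc` at `u = m` (height `code * 0`, `pl_zero`, `ray_zero`),
`m = E`: `arm_exit` at `u = E`.  `arm_one`: `arm_exit` at `u = E + 1` (height one: `pl_nat`).
`arm_continuous`: `hgt` is continuous in `u` (`split_ifs`, `fun_prop`), `pl_continuous`.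
`arm_mem`: `s = u/(E+1)` with `u = (E+1) s`, in one of the intervals (`m = ⌊u⌋₊ < E`, or `u ≥ E`); heights in
`[0, L]` (`code_le`; the exit height is `≤ 1`), `pl_real` with `ray_adj`.
-/

namespace Pool.Agent.DB

open Set

namespace Model

variable (M : Model) {x : M.V}

theorem arm_exc (hx : x ∈ M.B) {E m : ℕ} (hm : m < E) {u : ℝ} (h0 : (m : ℝ) ≤ u)
    (h1 : u ≤ m + 1) : M.armPt x E (u / ((E : ℝ) + 1)) =
      pl (M.ray x m) M.L ((M.code x E m : ℝ) * (1 - |2 * (u - m) - 1|)) := by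
  rw [armPt_exc M x hx E m hm u h0 h1, max_eq_right]
  have h2 : |2 * (u - m) - 1| ≤ 1 := by
    rw [abs_le]
    constructor <;> linarith
  linarith

theorem arm_exit (hx : x ∈ M.B) {E : ℕ} {u : ℝ} (h0 : (E : ℝ) ≤ u) (h1 : u ≤ E + 1) :
    M.armPt x E (u / ((E : ℝ) + 1)) = pl (M.ray x E) M.L (u - E) := by
  exact armPt_exit M x hx E u h0

theorem arm_int (hx : x ∈ M.B) {E m : ℕ} (hm : m ≤ E) :
    M.armPt x E ((m : ℝ) / ((E : ℝ) + 1)) = ev x := by
  rcases Nat.lt_or_ge m E with h | h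
  · rw [M.arm_exc hx h le_rfl (by linarith)]
    have h2 : (1 : ℝ) - |2 * ((m : ℝ) - m) - 1| = 0 := by norm_num
    rw [h2, mul_zero, pl_zero, M.ray_zero x hx]
  · have h3 : m = E := by omega
    rw [h3, M.arm_exit hx le_rfl (by linarith), sub_self, pl_zero, M.ray_zero x hx]

theorem arm_zero (hx : x ∈ M.B) (E : ℕ) : M.armPt x E 0 = ev x := by
  have h := M.arm_int hx (Nat.zero_le E)
  simpa using h

theorem arm_one (hx : x ∈ M.B) (E : ℕ) : M.armPt x E 1 = ev (M.ray x E 1) := by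
  have h0 : ((E : ℝ) + 1) ≠ 0 := by positivity
  have h := M.arm_exit hx (E := E) (u := (E : ℝ) + 1) (by linarith) le_rfl
  rw [div_self h0, add_sub_cancel_left] at h
  have hL := M.L_ge hx
  have h2 := pl_nat (M.ray x E) (N := M.L) (j := 1) (by omega)
  rw [Nat.cast_one] at h2
  rw [h, h2]

theorem arm_continuous (x : M.V) (E : ℕ) : Continuous (M.armPt x E) := by
  have hh : ∀ m, Continuous (fun s : ℝ => M.hgt x E m (((E : ℝ) + 1) * s)) := by
    intro m
    unfold Model.hgt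
    split_ifs
    · fun_prop
    · fun_prop
  unfold Model.armPt
  refine continuous_const.add (continuous_finsetSum _ fun m _ => ?_)
  exact ((pl_continuous (M.ray x m) M.L).comp (hh m)).sub continuous_const

theorem arm_mem (hx : x ∈ M.B) {E : ℕ} (hE : E ∈ M.arms x) {s : ℝ} (h0 : 0 ≤ s) (h1 : s ≤ 1) :
    M.armPt x E s ∈ real M.G := by
  have hE0 : (0 : ℝ) < (E : ℝ) + 1 := by positivity
  have hL := M.L_ge hx
  have hadj : ∀ m j, j < M.L → M.G.Adj (M.ray x m j) (M.ray x m (j + 1)) :=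
    fun m j hj => M.ray_adj x hx m j hj
  have hs : s = (((E : ℝ) + 1) * s) / ((E : ℝ) + 1) := by
    field_simp
  set u : ℝ := ((E : ℝ) + 1) * s with hu
  have hu0 : 0 ≤ u := by positivity
  have hu1 : u ≤ (E : ℝ) + 1 := by
    rw [hu]
    nlinarith
  rw [hs]
  rcases le_or_gt (E : ℝ) u with h | h
  · rw [M.arm_exit hx h hu1]
    refine pl_real _ (by omega) (hadj E) (by linarith) ?_
    have h3 : (39 : ℝ) ≤ M.L := by exact_mod_cast hL
    linarith
  · have hfl := Nat.floor_le hu0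
    have hfl2 := Nat.lt_floor_add_one u
    have hm : ⌊u⌋₊ < E := (Nat.floor_lt hu0).2 h
    rw [M.arm_exc hx hm hfl hfl2.le]
    have h2 : |2 * (u - ⌊u⌋₊) - 1| ≤ 1 := by
      rw [abs_le]
      constructor <;> linarith
    have h3 := abs_nonneg (2 * (u - ⌊u⌋₊) - 1)
    have h4 : ((M.code x E ⌊u⌋₊ : ℕ) : ℝ) ≤ M.L := by
      exact_mod_cast M.code_le hx hE hm
    have h5 : (0 : ℝ) ≤ ((M.code x E ⌊u⌋₊ : ℕ) : ℝ) := Nat.cast_nonneg _
    refine pl_real _ (by omega) (hadj _) ?_ ?_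
    · exact mul_nonneg h5 (by linarith)
    · calc ((M.code x E ⌊u⌋₊ : ℕ) : ℝ) * (1 - |2 * (u - ⌊u⌋₊) - 1|)
          ≤ ((M.code x E ⌊u⌋₊ : ℕ) : ℝ) * 1 := mul_le_mul_of_nonneg_left (by linarith) h5
        _ ≤ M.L := by rw [mul_one]; exact h4

end Model

end Pool.Agent.DB
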