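import Pool.Agent.DB.D.Arm
import Pool.Agent.DB.Top.Sep

/-!
# DB-D-Map: the twist map on the star of `x` and elsewhere

PLAN.  `G/Pl.lean` has `model_cases` (points with `p x ≠ 0`) and `f_first` (formula of `f` on the first edges).
`nbr_arm`: `M.nbr`, `exists_arm`, `ray_per`.  `arm_unique`: `ray_inj` (`j = 1`), `arm_eq`.
`f_edge`: `s < 1`: `f_first`; `s = 1`: `p x = 0`, `f p = p` and `arm_one`.  `f_ev`: `v ≠ x`: `f_off`; `v = x`:
`f_edge` with `s = 0`, `arm_zero`.
`f_formula`: `σ_E = sg G x v_E p`, `v_E = ray x E 1`.  If `p = (1-s) ev x + s ev v_{E₀}`, `s < 1`: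
`σ_{E₀} = s` (`sg_edge`), the other `σ_E = 0` (`sg_other` or `dir_unique`), all other terms vanish
(`arm_zero`).  If `p x = 0`: all `σ_E ∈ {0, 1}` (`sg_mid` would give `p x = 1 - σ > 0`), terms vanish by
`arm_zero`, `arm_one`; `f p = p`.
-/

namespace Pool.Agent.DB

open Set

namespace Model

variable (M : Model) {x : M.V}

theorem nbr_arm (hx : x ∈ M.B) {v : M.V} (h : M.G.Adj x v) : ∃ E ∈ M.arms x, v = M.ray x E 1 := by
  obtain ⟨m, _, rfl⟩ := M.nbr x hx v h
  obtain ⟨E, hE, hmod⟩ := M.exists_arm hx m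
  exact ⟨E, hE, M.ray_per x hx m E 1 hmod.symm⟩

theorem arm_adj (hx : x ∈ M.B) (E : ℕ) : M.G.Adj x (M.ray x E 1) := by
  have hL := M.L_ge hx
  have h := M.ray_adj x hx E 0 (by omega)
  rw [M.ray_zero x hx] at h
  exact h

theorem arm_unique (hx : x ∈ M.B) {E E' : ℕ} (hE : E ∈ M.arms x) (hE' : E' ∈ M.arms x)
    (h : M.ray x E 1 = M.ray x E' 1) : E = E' := by
  have hL := M.L_ge hx
  rcases (M.ray_inj x hx E 1 E' 1 (by omega) (by omega) h).2 with h2 | h2
  · omega
  · exact M.arm_eq hx hE hE' h2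

theorem f_off {p : M.V → ℝ} (h : p x = 0) : M.f x p = p := by
  unfold Model.f
  rw [if_pos h]

theorem f_edge (hx : x ∈ M.B) {E : ℕ} (hE : E ∈ M.arms x) {s : ℝ} (h0 : 0 ≤ s) (h1 : s ≤ 1) :
    M.f x ((1 - s) • ev x + s • ev (M.ray x E 1)) = M.armPt x E s := by
  rcases lt_or_eq_of_le h1 with h | rfl
  · exact f_first M x hx E (Finset.mem_Icc.1 hE).1 (Finset.mem_Icc.1 hE).2 s h0 h
  · have hne : x ≠ M.ray x E 1 := (M.arm_adj hx E).ne
    have h2 : ((1 - (1 : ℝ)) • ev x + (1 : ℝ) • ev (M.ray x E 1)) = ev (M.ray x E 1) := by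
      rw [sub_self, zero_smul, one_smul, zero_add]
    rw [h2, M.arm_one hx, M.f_off]
    rw [ev_apply, if_neg hne]

theorem f_ev (hx : x ∈ M.B) (v : M.V) : M.f x (ev v) = ev v := by
  by_cases h : x = v
  · subst h
    have h3 := M.three_le x hx
    have hE : M.K x + 1 ∈ M.arms x := Finset.mem_Icc.2 ⟨le_refl _, by omega⟩
    have h2 := M.f_edge hx hE (le_refl 0) zero_le_one
    rw [M.arm_zero hx, sub_zero, one_smul, zero_smul, add_zero] at h2
    exact h2
  · exact M.f_off (by rw [ev_apply, if_neg h])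

theorem star_cases (hx : x ∈ M.B) {p : M.V → ℝ} (hp : p ∈ real M.G) :
    p x = 0 ∨ ∃ E ∈ M.arms x, ∃ s : ℝ, 0 ≤ s ∧ s < 1 ∧
      p = (1 - s) • ev x + s • ev (M.ray x E 1) := by
  by_cases h : p x = 0
  · exact Or.inl h
  · obtain ⟨E, s, h1, h2, h3, h4, h5⟩ := model_cases M x hx p hp h
    exact Or.inr ⟨E, Finset.mem_Icc.2 ⟨h1, h2⟩, s, h3, h4, h5⟩

theorem f_formula (hx : x ∈ M.B) {p : M.V → ℝ} (hp : p ∈ real M.G) :
    M.f x p = p + ∑ E ∈ M.arms x, (M.armPt x E (sg M.G x (M.ray x E 1) p) -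
      ((1 - sg M.G x (M.ray x E 1) p) • ev x + sg M.G x (M.ray x E 1) p •
        ev (M.ray x E 1))) := by
  have hG := M.tree
  rcases M.star_cases hx hp with h | ⟨E, hE, s, h0, h1, rfl⟩
  · rw [M.f_off h, Finset.sum_eq_zero, add_zero]
    intro E hE
    have hadj := M.arm_adj hx E
    have hn := sg_nonneg x (M.ray x E 1) hp
    have hl := sg_le_one x (M.ray x E 1) hp
    rcases lt_or_eq_of_le hn with h2 | h2
    · rcases lt_or_eq_of_le hl with h3 | h3
      · exfalso
        have h4 := sg_mid hG hadj hp h2 h3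
        have h5 := congrFun h4 x
        rw [h, Pi.add_apply, Pi.smul_apply, Pi.smul_apply, ev_apply, ev_apply, if_pos rfl,
          if_neg hadj.ne, smul_eq_mul, smul_eq_mul] at h5
        linarith
      · rw [h3, M.arm_one hx, sub_self, zero_smul, one_smul, zero_add, sub_self]
    · rw [← h2, M.arm_zero hx, sub_zero, zero_smul, one_smul, add_zero, sub_self]
  · rw [M.f_edge hx hE h0 h1.le, Finset.sum_eq_single E]
    · rw [sg_edge hG (M.arm_adj hx E)]
      abel
    · intro E' hE' hne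
      have h2 : sg M.G x (M.ray x E' 1) ((1 - s) • ev x + s • ev (M.ray x E 1)) = 0 := by
        rw [sg_other (M.arm_adj hx E), sg_ev_not (side_left hG (M.arm_adj hx E'))]
        intro h
        rcases Sym2.eq_iff.1 h with ⟨_, h3⟩ | ⟨h3, _⟩
        · exact hne (M.arm_unique hx hE' hE h3.symm)
        · exact (M.arm_adj hx E').ne h3
      rw [h2, M.arm_zero hx, sub_zero, zero_smul, one_smul, add_zero, sub_self]
    · intro h
      exact absurd hE h

end Model

theorem f_mapsTo (M : Model) (x : M.V) (hx : x ∈ M.B) : MapsTo (M.f x) (real M.G) (real M.G) := by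
  intro p hp
  rcases M.star_cases hx hp with h | ⟨E, hE, s, h0, h1, rfl⟩
  · rw [M.f_off h]
    exact hp
  · rw [M.f_edge hx hE h0 h1.le]
    exact M.arm_mem hx hE h0 h1.le

theorem f_continuousOn (M : Model) (x : M.V) (hx : x ∈ M.B) :
    ContinuousOn (M.f x) (real M.G) := by
  have h : Continuous (fun p : M.V → ℝ => p + ∑ E ∈ M.arms x,
      (M.armPt x E (sg M.G x (M.ray x E 1) p) -
      ((1 - sg M.G x (M.ray x E 1) p) • ev x + sg M.G x (M.ray x E 1) p •
        ev (M.ray x E 1)))) := by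
    refine continuous_id.add (continuous_finsetSum _ fun E _ => ?_)
    have h1 := sg_continuous M.G x (M.ray x E 1)
    exact ((M.arm_continuous x E).comp h1).sub
      (((continuous_const.sub h1).smul continuous_const).add (h1.smul continuous_const))
  exact h.continuousOn.congr fun p hp => M.f_formula hx hp

theorem f_surjOn (M : Model) (x : M.V) (hx : x ∈ M.B) :
    SurjOn (M.f x) (real M.G) (real M.G) := by
  intro p hp
  rcases M.star_cases hx hp with h | ⟨E, hE, s, h0, h1, rfl⟩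
  · exact ⟨p, hp, M.f_off h⟩
  · have hE0 : (0 : ℝ) < (E : ℝ) + 1 := by positivity
    have hu0 : 0 ≤ ((E : ℝ) + s) / ((E : ℝ) + 1) := by positivity
    have hu1 : ((E : ℝ) + s) / ((E : ℝ) + 1) ≤ 1 := by
      rw [div_le_one hE0]
      linarith
    refine ⟨_, edge_mem (M.arm_adj hx E) hu0 hu1, ?_⟩
    rw [M.f_edge hx hE hu0 hu1, M.arm_exit hx (by linarith) (by linarith)]
    have hL := M.L_ge hx
    have h2 := pl_eq (M.ray x E) M.L 0 (by omega) s h0 h1.le
    rw [show (E : ℝ) + s - E = ((0 : ℕ) : ℝ) + s by push_cast; ring, h2, M.ray_zero x hx]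

end Pool.Agent.DB
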