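import Pool.Agent.DB.Top.Basic
import Pool.Agent.DB.G.Pl

/-!
# DB-D-Pl: the piecewise linear path along the vertices `w 0, ..., w N`

`pl_eq` (G/Pl): `pl w N (j + s) = (1 - s) • ev (w j) + s • ev (w (j + 1))` for `j < N`, `0 ≤ s ≤ 1`.
-/

set_option autoImplicit false

namespace Pool.Agent.DB

open Set

variable {V : Type} [DecidableEq V]

theorem pl_nat (w : ℕ → V) {N j : ℕ} (hj : j ≤ N) : pl w N (j : ℝ) = ev (w j) := by
  unfold pl
  rw [Finset.sum_eq_single j]
  · simp
  · intro i _ hi
    have h2 : max 0 (1 - |(j : ℝ) - (i : ℕ)|) = 0 := by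
      apply max_eq_left
      have h3 : (1 : ℝ) ≤ |(j : ℝ) - i| := by
        have h4 : (j : ℤ) - i ≠ 0 := by omega
        have h5 := Int.one_le_abs h4
        have h6 : ((1 : ℤ) : ℝ) ≤ ((|(j : ℤ) - i| : ℤ) : ℝ) := by exact_mod_cast h5
        push_cast at h6
        exact h6
      linarith
    rw [h2, zero_smul]
  · intro h
    exact absurd (Finset.mem_range.2 (by omega)) h

theorem pl_continuous (w : ℕ → V) (N : ℕ) : Continuous (pl w N) := by
  unfold pl
  refine continuous_finsetSum _ fun j _ => ?_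
  exact (continuous_const.max (continuous_const.sub
    ((continuous_id.sub continuous_const).abs))).smul continuous_const

/-- coordinates along an injective path -/
private theorem pl_coord (w : ℕ → V) {N : ℕ} (hw : ∀ i j, i ≤ N → j ≤ N → w i = w j → i = j)
    (h : ℝ) {i : ℕ} (hi : i ≤ N) : pl w N h (w i) = max 0 (1 - |h - i|) := by
  unfold pl
  rw [Finset.sum_apply, Finset.sum_eq_single i]
  · simp [ev_apply]
  · intro j hj hji
    have hj' : j ≤ N := by
      have := Finset.mem_range.1 hj
      omega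
    have h1 : w i ≠ w j := fun h2 => hji (hw i j hi hj' h2).symm
    simp [ev_apply, h1]
  · intro h1
    exact absurd (Finset.mem_range.2 (by omega)) h1

theorem pl_injOn (w : ℕ → V) {N : ℕ} (hw : ∀ i j, i ≤ N → j ≤ N → w i = w j → i = j) :
    InjOn (pl w N) (Icc 0 (N : ℝ)) := by
  have key : ∀ h h' : ℝ, 0 ≤ h → h ≤ N → h < h' → h' ≤ N → pl w N h ≠ pl w N h' := by
    intro h h' h0 h1 hlt h1' he
    rcases Nat.eq_zero_or_pos N with hN | hN
    · rw [hN] at h1'
      push_cast at h1'
      linarith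
    · have hfl := Nat.floor_le h0
      have hfl2 := Nat.lt_floor_add_one h
      set j := ⌊h⌋₊ with hj
      have hjN : j ≤ N := by
        have : (j : ℝ) ≤ N := by linarith
        exact_mod_cast this
      have e1 := congrFun he (w j)
      rw [pl_coord w hw h hjN, pl_coord w hw h' hjN, abs_of_nonneg (by linarith : 0 ≤ h - j),
        abs_of_nonneg (by linarith : 0 ≤ h' - j), max_eq_right (by linarith)] at e1
      rcases max_cases (0 : ℝ) (1 - (h' - j)) with h5 | h5
      · rw [h5.1] at e1
        linarith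
      · rw [h5.1] at e1
        linarith
  intro h hh h' hh' he
  rcases lt_trichotomy h h' with h1 | h1 | h1
  · exact absurd he (key h h' hh.1 hh.2 h1 hh'.2)
  · exact h1
  · exact absurd he.symm (key h' h hh'.1 hh'.2 h1 hh.2)

theorem pl_real {G : SimpleGraph V} (w : ℕ → V) {N : ℕ} (hN : 0 < N)
    (hw : ∀ j, j < N → G.Adj (w j) (w (j + 1))) {h : ℝ} (h0 : 0 ≤ h) (h1 : h ≤ N) :
    pl w N h ∈ real G := by
  obtain ⟨n, t, hn, ht0, ht1, rfl⟩ := pl_mem w N hN h h0 h1
  rw [pl_eq w N n hn t ht0 ht1]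
  exact edge_mem (hw n hn) ht0 ht1

end Pool.Agent.DB
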